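import Pool.Agent.Lib.P26f563.Main2

/-!
# Equivariant zero-divisors beat the topological complexities of all fixed sets

`G = ℤˣ` has order two and `X = S¹ × S^(2m+1)`, with the involution
`(s, v) ↦ (conj s, - conj s • v)`.  Its fixed set is `{-1} × S^(2m+1)`.
-/

namespace Pool.Agent.Results.MP_26f563_gt.NilExceedsFixedTC

open EqTC

/-- There is one multiplicative equivariant cohomology theory `h` for the group of order two such
that, for every `m`, the closed manifold `X = S¹ × S^(2m+1)` with the smooth involution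
`(s, v) ↦ (conj s, - conj s • v)` has non-empty fixed sets, `TC (X^H) ≤ 3` for all subgroups `H`,
and `nil I_h(X) ≥ 2m + 1`. -/
theorem result : ∃ h : MultCohomology ℤˣ, ∀ m : ℕ,
    (∀ H : Subgroup ℤˣ, (fixedSet (exM m) H).Nonempty) ∧
    maxTC (exM m) ≤ 3 ∧ ((2 * m + 1 : ℕ) : ℕ∞) ≤ h.nilZeroDiv (exM m) := by
  refine ⟨invCoh ℤˣ, fun m => ⟨fun H => ?_, iSup_le fun H => ?_, ?_⟩⟩
  · obtain ⟨v, hv⟩ := exists_ne (0 : EuclideanSpace ℂ (Fin (m + 1)))
    refine ⟨mkG (ptNeg, ⟨‖v‖⁻¹ • v, ?_⟩), fixedSet_mem_neg H _⟩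
    rw [mem_sphere_zero_iff_norm, norm_smul, norm_inv, norm_norm,
      inv_mul_cancel₀ (norm_ne_zero_iff.2 hv)]
  · exact TC_fixedSet_le H
  · have h := nil_ge (K := EuclideanSpace ℂ (Fin (m + 1)))
    have hd : Module.finrank ℝ (EuclideanSpace ℂ (Fin (m + 1))) = 2 * (m + 1) := by
      rw [finrank_real_of_complex, finrank_euclideanSpace, Fintype.card_fin]
    rw [hd] at h
    have h2 : 2 * (m + 1) - 1 = 2 * m + 1 := by omega
    rwa [h2] at h

end Pool.Agent.Results.MP_26f563_gt.NilExceedsFixedTC
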